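import Pool.Agent.X170.PC.Stm

namespace Pool.Agent.X279.PC

open Pool.Agent.X170.PC

theorem g_append_left {b c : List ℕ} {i : ℕ} (h : i < b.length) : g (b ++ c) i = g b i := by
  unfold g
  rw [List.getD_append _ _ _ _ h]

theorem g_append_right {b v : List ℕ} {m i : ℕ} (hb : b.length = m) (hi : i < v.length) :
    g (b ++ v.map (· + m)) (m + i) = g v i + m := by
  unfold g
  rw [List.getD_append_right _ _ _ _ (by omega), hb, Nat.add_sub_cancel_left,
    List.getD_eq_getElem _ _ (by rw [List.length_map]; exact hi), List.getElem_map,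
    List.getD_eq_getElem _ _ hi]

theorem g_mem {w : List ℕ} {i : ℕ} (h : i < w.length) : g w i ∈ w := by
  unfold g
  rw [List.getD_eq_getElem _ _ h]
  exact List.getElem_mem h

theorem finite_words (n : ℕ) : {w : List ℕ | w.length = n ∧ ∀ a ∈ w, a < n}.Finite := by
  refine Set.Finite.subset (Set.Finite.image (List.map (Fin.val (n := n)))
    (List.finite_length_eq (Fin n) n)) ?_
  rintro w ⟨h1, h2⟩
  refine ⟨w.pmap (fun a ha => (⟨a, ha⟩ : Fin n)) h2, ?_, ?_⟩
  · change (w.pmap _ _).length = n
    rw [List.length_pmap, h1]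
  · rw [List.map_pmap]
    simp

theorem finite_A (n : ℕ) : (A n).Finite := by
  refine (finite_words n).subset ?_
  rintro w ⟨h1, h2, -⟩
  exact ⟨h1, fun a ha => h1 ▸ h2.2.1 a ha⟩

theorem finite_D (n : ℕ) : (D n).Finite := (finite_A n).subset fun _ h => h.1

theorem append_mem {n m : ℕ} (hm : m ≤ n) {b v : List ℕ} (hb : b ∈ A m) (hv : v ∈ A (n - m)) :
    b ++ v.map (· + m) ∈ A n := by
  obtain ⟨lb, ⟨nb, ab, cb⟩, sb⟩ := hb
  obtain ⟨lv, ⟨nv, av, cv⟩, sv⟩ := hv
  have hlen : (b ++ v.map (· + m)).length = n := by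
    rw [List.length_append, List.length_map, lb, lv]; omega
  have gl : ∀ i, i < m → g (b ++ v.map (· + m)) i = g b i := fun i hi =>
    g_append_left (by omega)
  have gr : ∀ i, i < n - m → g (b ++ v.map (· + m)) (m + i) = g v i + m := fun i hi =>
    g_append_right lb (by omega)
  have bl : ∀ i, i < m → g b i < m := fun i hi => by
    have := ab _ (g_mem (w := b) (i := i) (by omega)); omega
  have bv : ∀ i, i < n - m → g v i < n - m := fun i hi => by
    have := av _ (g_mem (w := v) (i := i) (by omega)); omega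
  refine ⟨hlen, ⟨?_, ?_, ?_⟩, ?_⟩
  · rw [List.nodup_append]
    refine ⟨nb, nv.map (fun a b h => by simpa using h), ?_⟩
    intro a ha c hc
    rw [List.mem_map] at hc
    obtain ⟨d, -, rfl⟩ := hc
    have := ab a ha
    omega
  · intro a ha
    rw [hlen]
    rw [List.mem_append, List.mem_map] at ha
    rcases ha with ha | ⟨c, hc, rfl⟩
    · have := ab a ha; omega
    · have := av c hc; omega
  · intro i hi
    rw [hlen] at hi
    by_cases him : i < m
    · have h1 := bl i him
      have h2 := bl _ h1
      rw [gl i him, gl _ h1, gl _ h2]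
      exact cb i (by omega)
    · obtain ⟨j, rfl⟩ := Nat.exists_eq_add_of_le (not_lt.1 him)
      have hj : j < n - m := by omega
      have h1 := bv j hj
      have h2 := bv _ h1
      rw [gr j hj, Nat.add_comm (g v j) m, gr _ h1, Nat.add_comm (g v (g v j)) m, gr _ h2]
      rcases cv j (by omega) with h | h
      · left; omega
      · right; omega
  · intro i j k hij hjk hk
    rw [hlen] at hk
    by_cases hkm : k < m
    · rw [gl k hkm, gl j (by omega), gl i (by omega)]
      exact sb i j k hij hjk (by omega)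
    · obtain ⟨k', rfl⟩ := Nat.exists_eq_add_of_le (not_lt.1 hkm)
      by_cases him : i < m
      · rw [gr k' (by omega), gl i him]
        have := bl i him
        omega
      · obtain ⟨i', rfl⟩ := Nat.exists_eq_add_of_le (not_lt.1 him)
        obtain ⟨j', rfl⟩ := Nat.exists_eq_add_of_le (show m ≤ j by omega)
        rw [gr k' (by omega), gr j' (by omega), gr i' (by omega)]
        have := sv i' j' k' (by omega) (by omega) (by omega)
        omega

theorem lt_absurd {n m m' : ℕ} {b b' v v' : List ℕ} (hb : b ∈ D m) (hb' : b' ∈ D m')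
    (h0 : 0 < m) (h : m < m')
    (e : b ++ v.map (· + m) = b' ++ v'.map (· + m')) : False := by
  obtain ⟨i, hi, h1⟩ := hb'.2 m h0 h
  obtain ⟨⟨lb, ⟨-, ab, -⟩, -⟩, -⟩ := hb
  obtain ⟨⟨lb', -, -⟩, -⟩ := hb'
  have h2 : g (b ++ v.map (· + m)) i = g b i := g_append_left (by omega)
  have h3 : g (b' ++ v'.map (· + m')) i = g b' i := g_append_left (by omega)
  have h4 := ab _ (g_mem (w := b) (i := i) (by omega))
  rw [e, h3] at h2
  omega

theorem t_L1 : S_L1 := by
  classical
  intro n
  have e1 : ∀ k ∈ Finset.range n, (D (k + 1)).ncard * (A (n - (k + 1))).ncard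
      = ((finite_D (k + 1)).toFinset ×ˢ (finite_A (n - (k + 1))).toFinset).card := by
    intro k _
    rw [Finset.card_product, Set.ncard_eq_toFinset_card _ (finite_D (k + 1)),
      Set.ncard_eq_toFinset_card _ (finite_A (n - (k + 1)))]
  rw [Finset.sum_congr rfl e1, ← Finset.card_sigma, Set.ncard_eq_toFinset_card _ (finite_A n)]
  refine Finset.card_le_card_of_injOn
    (fun x : (_ : ℕ) × (List ℕ × List ℕ) => x.2.1 ++ x.2.2.map (· + (x.1 + 1))) ?_ ?_
  · rintro ⟨k, b, v⟩ hx
    rw [Finset.mem_coe, Finset.mem_sigma, Finset.mem_range, Finset.mem_product,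
      Set.Finite.mem_toFinset, Set.Finite.mem_toFinset] at hx
    obtain ⟨hk, hb, hv⟩ := hx
    rw [Finset.mem_coe, Set.Finite.mem_toFinset]
    exact append_mem (by omega) hb.1 hv
  · rintro ⟨k, b, v⟩ hx ⟨k', b', v'⟩ hx' e
    rw [Finset.mem_coe, Finset.mem_sigma, Finset.mem_range, Finset.mem_product,
      Set.Finite.mem_toFinset, Set.Finite.mem_toFinset] at hx hx'
    obtain ⟨hk, hb, hv⟩ := hx
    obtain ⟨hk', hb', hv'⟩ := hx'
    simp only at e hk hb hv hk' hb' hv'
    have hkk : k = k' := by
      rcases lt_trichotomy k k' with h | h | h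
      · exact (lt_absurd (n := n) hb hb' (by omega) (by omega) e).elim
      · exact h
      · exact (lt_absurd (n := n) hb' hb (by omega) (by omega) e.symm).elim
    subst hkk
    have hlen : b.length = b'.length := by rw [hb.1.1, hb'.1.1]
    obtain ⟨h1, h2⟩ := List.append_inj e hlen
    subst h1
    have h3 : v = v' := List.map_injective_iff.2 (fun a b h => by simpa using h) h2
    subst h3
    rfl

end Pool.Agent.X279.PC
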